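import Mathlib
import Pool.Agent.Run7.h680.BD.Stm

/-!
# MP_5f065d_co (S09049): piece GLUE
-/

set_option autoImplicit false

namespace Pool.Agent.Run7.h298.BD

open SimpleGraph Pool.Agent.Run7.h680.BD

/-- Reachability is transported by a map which sends adjacent vertices to reachable ones. -/
theorem reach_lift {V V' : Type} {G : SimpleGraph V} {H : SimpleGraph V'} (f : V → V')
    (h : ∀ a b, G.Adj a b → H.Reachable (f a) (f b)) {x y : V} (hxy : G.Reachable x y) :
    H.Reachable (f x) (f y) := by
  obtain ⟨w⟩ := hxy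
  induction w with
  | nil => exact Reachable.refl _
  | cons ha w ih => exact (h _ _ ha).trans ih

/-- Reachability in two graphs. -/
theorem reach_id {V : Type} {G H : SimpleGraph V} {x y : V} (hxy : G.Reachable x y)
    (h : ∀ a b, G.Adj a b → H.Reachable a b) : H.Reachable x y :=
  reach_lift (fun z => z) h hxy

/-- The edges of a forest are bridges. -/
theorem bridge {V : Type} {G : SimpleGraph V} (h : G.IsAcyclic) {a b : V} (hab : G.Adj a b) :
    ¬ (G.deleteEdges {s(a, b)}).Reachable a b :=
  isBridge_iff.1 (isAcyclic_iff_forall_adj_isBridge.1 h hab)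

/-- A graph whose edges are bridges is a forest. -/
theorem acyc_of {V : Type} {G : SimpleGraph V}
    (h : ∀ a b, G.Adj a b → ¬ (G.deleteEdges {s(a, b)}).Reachable a b) : G.IsAcyclic :=
  isAcyclic_iff_forall_adj_isBridge.2 fun a b hab => isBridge_iff.2 (h a b hab)

/-- The exchange of `C`, on the vertices of the whole graph. -/
structure Loc {V : Type} (B : SimpleGraph V) (p : V → Option V) (C : Set V) (N : ℕ)
    (D : SimpleGraph V) (q : V → Option V) (ρ : V → ℕ) : Prop where
  mem : ∀ x y, D.Adj x y → x ∈ C ∧ y ∈ C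
  acyc : D.IsAcyclic
  reach : ∀ x y, x ∈ C → y ∈ C → B.Adj x y → D.Reachable x y
  out : ∀ x y, p x = some y → y ∉ C → q x = none
  nonee : ∀ x, p x = Option.none → q x = Option.none
  nin : ∀ x y, x ∈ C → y ∈ C → q x = none → p x ≠ some y
  qmem : ∀ x y, q x = some y → x ∈ C ∧ y ∈ C
  edge : ∀ x y, x ∈ C → y ∈ C → ((D.Adj x y ∨ q x = some y ∨ q y = some x) ↔
    (B.Adj x y ∨ p x = some y ∨ p y = some x))
  disj : ∀ x y, q x = some y → ¬ D.Adj x y
  two : ∀ x y, q x = some y → q y ≠ some x
  lt : ∀ x, x ∈ C → ρ x < N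
  r1 : ∀ x y, q x = some y → ¬ (Bge D ρ (ρ x)).Reachable x y
  r2 : ∀ x y, x ∈ C → y ∈ C → x ≠ y → ρ x = ρ y → ¬ (Bge D ρ (ρ x)).Reachable x y

theorem res_some {V : Type} {C : Set V} {p : V → Option V} {x y : C} :
    res C p x = some y ↔ p x = some (y : V) := by
  unfold res
  rcases hp : p x with _ | z
  · simp
  · by_cases hz : z ∈ C
    · simp [hz, Subtype.ext_iff]
    · simp only [Option.bind_some, hz, dite_false, Option.some.injEq, false_iff, reduceCtorEq]
      rintro rfl
      exact hz y.2

theorem res_none {V : Type} {C : Set V} {p : V → Option V} {x : C} :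
    res C p x = none ↔ ∀ y, p x = some y → y ∉ C := by
  unfold res
  rcases hp : p x with _ | z
  · simp
  · by_cases hz : z ∈ C
    · simp [hz]
    · simp [hz]

open Classical in
theorem exists_loc {V : Type} (B : SimpleGraph V) (p : V → Option V) (C : Set V) (N : ℕ)
    (h : Con (B.induce C) (res C p) N) :
    ∃ (D : SimpleGraph V) (q : V → Option V) (ρ : V → ℕ), Loc B p C N D q ρ := by
  obtain ⟨B₁, p₁, ρ₁, ok⟩ := h
  let D : SimpleGraph V :=
    { Adj := fun x y => ∃ (hx : x ∈ C) (hy : y ∈ C), B₁.Adj ⟨x, hx⟩ ⟨y, hy⟩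
      symm := ⟨fun x y ⟨hx, hy, h⟩ => ⟨hy, hx, h.symm⟩⟩
      loopless := ⟨fun x ⟨hx, hy, h⟩ => h.ne rfl⟩ }
  let q : V → Option V := fun x => if hx : x ∈ C then (p₁ ⟨x, hx⟩).map Subtype.val else none
  let ρ : V → ℕ := fun x => if hx : x ∈ C then ρ₁ ⟨x, hx⟩ else 0
  have hq : ∀ x y, q x = some y ↔ ∃ (hx : x ∈ C) (hy : y ∈ C), p₁ ⟨x, hx⟩ = some ⟨y, hy⟩ := by
    intro x y
    by_cases hx : x ∈ C
    · simp only [q, hx, dite_true, Option.map_eq_some_iff, exists_true_left]
      constructor
      · rintro ⟨a, ha, rfl⟩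
        exact ⟨a.2, ha⟩
      · rintro ⟨hy, h⟩
        exact ⟨_, h, rfl⟩
    · simp [q, hx]
  have hq0 : ∀ x (hx : x ∈ C), q x = none ↔ p₁ ⟨x, hx⟩ = none := by
    intro x hx
    simp [q, hx]
  have hρ : ∀ x (hx : x ∈ C), ρ x = ρ₁ ⟨x, hx⟩ := by
    intro x hx
    simp [ρ, hx]
  have hD : ∀ (x y : C), B₁.Reachable x y → D.Reachable (x : V) y := by
    intro x y
    exact reach_lift (G := B₁) (H := D) (Subtype.val) fun a b hab =>
      Adj.reachable ⟨a.2, b.2, hab⟩
  have hlift : ∀ (k : ℕ) (x y : V) (hx : x ∈ C) (hy : y ∈ C), (Bge D ρ k).Reachable x y →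
      (Bge B₁ ρ₁ k).Reachable ⟨x, hx⟩ ⟨y, hy⟩ := by
    intro k x y hx hy h
    have := reach_lift (H := Bge B₁ ρ₁ k)
      (fun z : V => if hz : z ∈ C then (⟨z, hz⟩ : C) else ⟨x, hx⟩) (fun a b hab => by
        obtain ⟨⟨ha, hb, hab⟩, h1, h2⟩ := hab
        rw [hρ a ha] at h1
        rw [hρ b hb] at h2
        simp only [ha, hb, dite_true]
        exact Adj.reachable ⟨hab, h1, h2⟩) h
    simpa only [hx, hy, dite_true] using this
  refine ⟨D, q, ρ, ?_⟩
  constructor
  · rintro x y ⟨hx, hy, -⟩
    exact ⟨hx, hy⟩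
  · refine acyc_of ?_
    rintro a b ⟨ha, hb, hab⟩ h
    refine bridge ok.acyc hab ?_
    have := reach_lift (H := B₁.deleteEdges {s(⟨a, ha⟩, ⟨b, hb⟩)})
      (fun z : V => if hz : z ∈ C then (⟨z, hz⟩ : C) else ⟨a, ha⟩) (fun c d hcd => by
        rw [deleteEdges_adj] at hcd
        obtain ⟨⟨hc, hd, hcd⟩, h1⟩ := hcd
        simp only [hc, hd, dite_true]
        refine Adj.reachable ?_
        rw [deleteEdges_adj]
        refine ⟨hcd, fun h2 => h1 ?_⟩
        simp only [Set.mem_singleton_iff, Sym2.eq_iff, Subtype.mk.injEq] at h2 ⊢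
        exact h2) h
    simpa only [ha, hb, dite_true] using this
  · intro x y hx hy hxy
    have h1 : (B.induce C).Reachable ⟨x, hx⟩ ⟨y, hy⟩ := Adj.reachable hxy
    exact hD ⟨x, hx⟩ ⟨y, hy⟩ ((ok.reach _ _).2 h1)
  · intro x y hxy hy
    by_cases hx : x ∈ C
    · rw [hq0 x hx, ok.none, res_none]
      intro z hz
      have : y = z := Option.some.inj (hxy.symm.trans hz)
      rwa [← this]
    · simp [q, hx]
  · intro x hxn
    by_cases hx : x ∈ C
    · rw [hq0 x hx, ok.none, res_none]
      intro z hz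
      simp [hxn] at hz
    · simp [q, hx]
  · intro x y hx hy h0 h1
    rw [hq0 x hx, ok.none, res_none] at h0
    exact h0 y h1 hy
  · intro x y hxy
    obtain ⟨hx, hy, -⟩ := (hq x y).1 hxy
    exact ⟨hx, hy⟩
  · intro x y hx hy
    have h1 := ok.edge ⟨x, hx⟩ ⟨y, hy⟩
    rw [res_some, res_some, comap_adj] at h1
    rw [hq, hq]
    refine Iff.trans ?_ h1
    constructor
    · rintro (⟨_, _, h⟩ | ⟨_, _, h⟩ | ⟨_, _, h⟩)
      · exact Or.inl h
      · exact Or.inr (Or.inl h)
      · exact Or.inr (Or.inr h)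
    · rintro (h | h | h)
      · exact Or.inl ⟨hx, hy, h⟩
      · exact Or.inr (Or.inl ⟨hx, hy, h⟩)
      · exact Or.inr (Or.inr ⟨hy, hx, h⟩)
  · rintro x y hxy ⟨hx, hy, h⟩
    obtain ⟨_, _, h1⟩ := (hq x y).1 hxy
    exact ok.disj _ _ h1 h
  · intro x y hxy hyx
    obtain ⟨hx, hy, h1⟩ := (hq x y).1 hxy
    obtain ⟨_, _, h2⟩ := (hq y x).1 hyx
    exact ok.two _ _ h1 h2
  · intro x hx
    rw [hρ x hx]
    exact ok.lt _
  · intro x y hxy h
    obtain ⟨hx, hy, h1⟩ := (hq x y).1 hxy
    refine ok.r1 _ _ h1 ?_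
    rw [← hρ x hx]
    exact hlift _ x y hx hy h
  · intro x y hx hy hne hr h
    refine ok.r2 ⟨x, hx⟩ ⟨y, hy⟩ (fun e => hne (congrArg Subtype.val e)) ?_ ?_
    · rw [← hρ x hx, ← hρ y hy, hr]
    · rw [← hρ x hx]
      exact hlift _ x y hx hy h

/-- **Piece GLUE**. -/
theorem t_GLUE : S_GLUE := by
  classical
  intro V _ B p W N hB htwo hdisj hW1 hW2 hC
  -- representatives
  let rep : V → V := fun x => ((Bout B W).connectedComponentMk x).out
  have hrep : ∀ x, (Bout B W).Reachable (rep x) x := fun x =>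
    ConnectedComponent.exact (Quot.out_eq ((Bout B W).connectedComponentMk x))
  have hrepe : ∀ x y, (Bout B W).Reachable x y → rep x = rep y := by
    intro x y h
    have : (Bout B W).connectedComponentMk x = (Bout B W).connectedComponentMk y :=
      ConnectedComponent.sound h
    simp only [rep, this]
  have hout : ∀ x y, (Bout B W).Reachable x y → x ∉ W → y ∉ W := by
    rintro x y ⟨w⟩
    induction w with
    | nil => exact fun h => h
    | cons ha w ih => exact fun _ => ih ha.2.2
  have hrepW : ∀ x, x ∉ W → rep x ∉ W := fun x hx => hout x _ (hrep x).symm hx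
  have hBout : ∀ x y, (Bout B W).Reachable x y → B.Reachable x y := fun x y h =>
    reach_id h fun a b hab => hab.1.reachable
  -- the exchanges
  have hex : ∀ c, ∃ (D : SimpleGraph V) (q : V → Option V) (ρ : V → ℕ), c ∉ W →
      Loc B p (comp B W c) N D q ρ := by
    intro c
    by_cases hc : c ∈ W
    · exact ⟨⊥, fun _ => none, fun _ => 0, fun h => absurd hc h⟩
    · obtain ⟨D, q, ρ, h⟩ := exists_loc B p _ N (hC c hc)
      exact ⟨D, q, ρ, fun _ => h⟩
  choose D q ρ loc using hex
  have L : ∀ x, x ∉ W → Loc B p (comp B W (rep x)) N (D (rep x)) (q (rep x)) (ρ (rep x)) :=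
    fun x hx => loc _ (hrepW x hx)
  have hmem : ∀ x, x ∈ comp B W (rep x) := fun x => hrep x
  have hmem_iff : ∀ x y, x ∉ W → (y ∈ comp B W (rep x) ↔ y ∉ W ∧ rep y = rep x) := by
    intro x y hx
    constructor
    · intro h
      have h' : (Bout B W).Reachable x y := (hrep x).symm.trans h
      exact ⟨hout x y h' hx, (hrepe x y h').symm⟩
    · rintro ⟨-, h⟩
      have := hrep y
      rw [h] at this
      exact this
  let B'' : SimpleGraph V :=
    { Adj := fun x y => (x ∉ W ∧ y ∉ W ∧ rep x = rep y ∧ (D (rep x)).Adj x y) ∨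
        (B.Adj x y ∧ (x ∈ W ∨ y ∈ W))
      symm := ⟨by
        rintro x y (⟨hx, hy, hr, h⟩ | ⟨h, h'⟩)
        · exact Or.inl ⟨hy, hx, hr.symm, hr ▸ h.symm⟩
        · exact Or.inr ⟨h.symm, h'.symm⟩⟩
      loopless := ⟨by
        rintro x (⟨hx, hy, hr, h⟩ | ⟨h, h'⟩)
        · exact h.ne rfl
        · exact h.ne rfl⟩ }
  let p'' : V → Option V := fun z =>
    if z ∈ W then p z else if q (rep z) z = none then p z else q (rep z) z
  let ρ'' : V → ℕ := fun z => if z ∈ W then 0 else ρ (rep z) z + 1
  have hadj : ∀ x y, B''.Adj x y ↔ (x ∉ W ∧ y ∉ W ∧ rep x = rep y ∧ (D (rep x)).Adj x y) ∨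
      (B.Adj x y ∧ (x ∈ W ∨ y ∈ W)) := fun x y => Iff.rfl
  -- adjacency
  have adjC : ∀ x y, x ∉ W → y ∉ W → rep x = rep y → (B''.Adj x y ↔ (D (rep x)).Adj x y) := by
    intro x y hx hy hr
    rw [hadj]
    constructor
    · rintro (⟨-, -, -, h⟩ | ⟨-, h | h⟩)
      · exact h
      · exact absurd h hx
      · exact absurd h hy
    · intro h
      exact Or.inl ⟨hx, hy, hr, h⟩
  have adjN : ∀ x y, x ∉ W → y ∉ W → rep x ≠ rep y → ¬ B''.Adj x y := by
    rintro x y hx hy hr (⟨-, -, h, -⟩ | ⟨-, h | h⟩)
    · exact hr h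
    · exact hx h
    · exact hy h
  have adjW : ∀ x y, (x ∈ W ∨ y ∈ W) → (B''.Adj x y ↔ B.Adj x y) := by
    intro x y hW
    rw [hadj]
    constructor
    · rintro (⟨hx, hy, -, -⟩ | ⟨h, -⟩)
      · rcases hW with h | h
        · exact absurd h hx
        · exact absurd h hy
      · exact h
    · intro h
      exact Or.inr ⟨h, hW⟩
  have badj : ∀ x y, x ∉ W → y ∉ W → B.Adj x y → rep x = rep y := fun x y hx hy h =>
    hrepe x y (Adj.reachable ⟨h, hx, hy⟩)
  -- the function
  have pW : ∀ x, x ∈ W → p'' x = p x := fun x hx => by simp [p'', hx]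
  have pC : ∀ x y, x ∉ W → y ∉ W → rep x = rep y → (p'' x = some y ↔ q (rep x) x = some y) := by
    intro x y hx hy hr
    have hxm := (hmem_iff x x hx).2 ⟨hx, rfl⟩
    have hym := (hmem_iff x y hx).2 ⟨hy, hr.symm⟩
    simp only [p'', hx, if_false]
    by_cases h0 : q (rep x) x = none
    · simp only [h0, if_true]
      constructor
      · intro h
        exact absurd h ((L x hx).nin x y hxm hym h0)
      · intro h
        exact absurd h (by simp)
    · simp only [h0, if_false]
  have pN : ∀ x y, x ∉ W → (y ∈ W ∨ rep x ≠ rep y) → (p'' x = some y ↔ p x = some y) := by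
    intro x y hx hy
    have hym : y ∉ comp B W (rep x) := by
      intro h
      have := (hmem_iff x y hx).1 h
      rcases hy with h' | h'
      · exact this.1 h'
      · exact h' this.2.symm
    simp only [p'', hx, if_false]
    by_cases h0 : q (rep x) x = none
    · simp only [h0, if_true]
    · simp only [h0, if_false]
      constructor
      · intro h
        exact absurd ((L x hx).qmem x y h).2 hym
      · intro h
        exact absurd ((L x hx).out x y h hym) h0
  have pWN : ∀ x y, (x ∈ W ∨ y ∈ W ∨ rep x ≠ rep y) → (p'' x = some y ↔ p x = some y) := by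
    intro x y h
    by_cases hx : x ∈ W
    · rw [pW x hx]
    · refine pN x y hx ?_
      rcases h with h | h
      · exact absurd h hx
      · exact h
  have rW : ∀ x, x ∈ W → ρ'' x = 0 := fun x hx => by simp [ρ'', hx]
  have rC : ∀ x, x ∉ W → ρ'' x = ρ (rep x) x + 1 := fun x hx => by simp [ρ'', hx]
  -- reachability
  have reach1 : ∀ x y, B''.Reachable x y → B.Reachable x y := by
    intro x y h
    refine reach_id h ?_
    rintro a b (⟨ha, hb, hr, h⟩ | ⟨h, -⟩)
    · exact hBout a b (((hrep a).symm).trans (hr ▸ hrep b))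
    · exact h.reachable
  have reach2 : ∀ x y, B.Reachable x y → B''.Reachable x y := by
    intro x y h
    refine reach_id h ?_
    intro a b hab
    by_cases hW : a ∈ W ∨ b ∈ W
    · exact Adj.reachable ((adjW a b hW).2 hab)
    · rw [not_or] at hW
      have hr := badj a b hW.1 hW.2 hab
      have hbm := (hmem_iff a b hW.1).2 ⟨hW.2, hr.symm⟩
      have h1 := (L a hW.1).reach a b (hmem a) hbm hab
      refine reach_id h1 ?_
      intro c d hcd
      have hm := (L a hW.1).mem c d hcd
      have hc := (hmem_iff a c hW.1).1 hm.1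
      have hd := (hmem_iff a d hW.1).1 hm.2
      refine Adj.reachable ((adjC c d hc.1 hd.1 (hc.2.trans hd.2.symm)).2 ?_)
      rw [hc.2]
      exact hcd
  -- walks of positive rank
  have walkC : ∀ k x y, x ∉ W → (Bge B'' ρ'' (k + 1)).Reachable x y →
      y ∉ W ∧ rep x = rep y ∧ (Bge (D (rep x)) (ρ (rep x)) k).Reachable x y := by
    rintro k x y hx ⟨w⟩
    induction w with
    | nil => exact ⟨hx, rfl, Reachable.refl _⟩
    | @cons a b c ha w ih =>
      obtain ⟨hab, h1, h2⟩ := ha
      have hb : b ∉ W := by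
        intro hb
        rw [rW b hb] at h2
        omega
      obtain ⟨hc, hr, hbc⟩ := ih hb
      have hrab : rep a = rep b := by
        by_contra hne
        exact adjN a b hx hb hne hab
      rw [adjC a b hx hb hrab] at hab
      rw [rC a hx] at h1
      rw [rC b hb] at h2
      rw [← hrab] at h2 hbc
      refine ⟨hc, hrab.trans hr, Reachable.trans (Adj.reachable ⟨hab, ?_, ?_⟩) hbc⟩
      · omega
      · omega
  refine ⟨B'', p'', ρ'', ?_⟩
  constructor
  · -- acyclic
    refine acyc_of ?_
    intro x y hxy hreach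
    by_cases hW : x ∈ W ∨ y ∈ W
    · have hb := (adjW x y hW).1 hxy
      refine bridge hB hb (reach_id hreach ?_)
      intro a b hab
      rw [deleteEdges_adj] at hab
      obtain ⟨hab, hne⟩ := hab
      rcases hab with ⟨ha, hb, hr, h⟩ | ⟨h, -⟩
      · have h1 : (Bout B W).Reachable a b := ((hrep a).symm).trans (hr ▸ hrep b)
        refine reach_id h1 ?_
        intro c d hcd
        refine Adj.reachable ?_
        rw [deleteEdges_adj]
        refine ⟨hcd.1, ?_⟩
        intro he
        simp only [Set.mem_singleton_iff, Sym2.eq_iff] at he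
        rcases hW with hW | hW <;> rcases he with ⟨h1, h2⟩ | ⟨h1, h2⟩
        · exact hcd.2.1 (h1 ▸ hW)
        · exact hcd.2.2 (h2 ▸ hW)
        · exact hcd.2.2 (h2 ▸ hW)
        · exact hcd.2.1 (h1 ▸ hW)
      · refine Adj.reachable ?_
        rw [deleteEdges_adj]
        exact ⟨h, hne⟩
    · rw [not_or] at hW
      obtain ⟨hx, hy⟩ := hW
      have hr : rep x = rep y := by
        by_contra hne
        exact adjN x y hx hy hne hxy
      have hD := (adjC x y hx hy hr).1 hxy
      refine bridge (L x hx).acyc hD ?_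
      -- the vertex of attachment
      have huniq : ∀ a a' b b', a ∉ W → a' ∉ W → rep a = rep a' → b ∈ W → b' ∈ W →
          B.Adj a b → B.Adj a' b' → a = a' := by
        intro a a' b b' ha ha' hr hb hb' hab hab'
        have haa' : (Bout B W).Reachable a a' := ((hrep a).symm).trans (hr ▸ hrep a')
        have hbb : b = b' := hW2 b hb b' hb'
          ((hab.symm.reachable.trans (hBout _ _ haa')).trans hab'.reachable)
        subst hbb
        by_contra hne
        refine bridge hB hab ?_
        have h1 : (B.deleteEdges {s(a, b)}).Reachable a a' := by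
          refine reach_id haa' ?_
          intro c d hcd
          refine Adj.reachable ?_
          rw [deleteEdges_adj]
          refine ⟨hcd.1, ?_⟩
          intro he
          simp only [Set.mem_singleton_iff, Sym2.eq_iff] at he
          rcases he with ⟨h1, h2⟩ | ⟨h1, h2⟩
          · exact hcd.2.2 (h2 ▸ hb)
          · exact hcd.2.1 (h1 ▸ hb)
        refine h1.trans (Adj.reachable ?_)
        rw [deleteEdges_adj]
        refine ⟨hab', ?_⟩
        intro he
        simp only [Set.mem_singleton_iff, Sym2.eq_iff] at he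
        rcases he with ⟨h1, h2⟩ | ⟨h1, h2⟩
        · exact hne h1.symm
        · exact ha' (h1 ▸ hb)
      obtain ⟨z₀, hz₀⟩ : ∃ z₀, ∀ a b, a ∉ W → rep a = rep x → b ∈ W → B.Adj a b → a = z₀ := by
        by_cases h : ∃ a b, a ∉ W ∧ rep a = rep x ∧ b ∈ W ∧ B.Adj a b
        · obtain ⟨a, b, ha, har, hb, hab⟩ := h
          exact ⟨a, fun a' b' ha' har' hb' hab' =>
            huniq a' a b' b ha' ha (har'.trans har.symm) hb' hb hab' hab⟩
        · exact ⟨x, fun a b ha har hb hab => absurd ⟨a, b, ha, har, hb, hab⟩ h⟩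
      have key := reach_lift (H := (D (rep x)).deleteEdges {s(x, y)})
        (fun z : V => if z ∉ W ∧ rep z = rep x then z else z₀) (fun a b hab => by
          rw [deleteEdges_adj] at hab
          obtain ⟨hab, hne⟩ := hab
          by_cases ha : a ∉ W ∧ rep a = rep x
          · by_cases hb : b ∉ W ∧ rep b = rep x
            · simp only [ha, hb, not_false_eq_true, and_self, if_true]
              refine Adj.reachable ?_
              rw [deleteEdges_adj]
              refine ⟨?_, hne⟩
              have := (adjC a b ha.1 hb.1 (ha.2.trans hb.2.symm)).1 hab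
              rwa [ha.2] at this
            · rw [if_pos ha, if_neg hb]
              rcases hab with ⟨-, hb', hr', -⟩ | ⟨h, h'⟩
              · exact absurd ⟨hb', hr'.symm.trans ha.2⟩ hb
              · rcases h' with h' | h'
                · exact absurd h' ha.1
                · rw [hz₀ a b ha.1 ha.2 h' h]
          · by_cases hb : b ∉ W ∧ rep b = rep x
            · rw [if_neg ha, if_pos hb]
              rcases hab with ⟨ha', -, hr', -⟩ | ⟨h, h'⟩
              · exact absurd ⟨ha', hr'.trans hb.2⟩ ha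
              · rcases h' with h' | h'
                · rw [hz₀ b a hb.1 hb.2 h' h.symm]
                · exact absurd h' hb.1
            · rw [if_neg ha, if_neg hb]) hreach
      simpa only [hx, hy, hr, not_false_eq_true, and_self, if_true] using key
  · exact fun x y => ⟨reach1 x y, reach2 x y⟩
  · intro x
    by_cases hx : x ∈ W
    · rw [pW x hx]
    · simp only [p'', hx, if_false]
      by_cases h0 : q (rep x) x = none
      · simp only [h0, if_true]
      · simp only [h0, if_false, false_iff]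
        intro h
        exact h0 ((L x hx).nonee x h)
  · -- edges
    intro x y
    by_cases hW : x ∈ W ∨ y ∈ W
    · rw [adjW x y hW, pWN x y (hW.elim Or.inl fun h => Or.inr (Or.inl h)),
        pWN y x (hW.elim (fun h => Or.inr (Or.inl h)) Or.inl)]
    · rw [not_or] at hW
      by_cases hr : rep x = rep y
      · rw [adjC x y hW.1 hW.2 hr, pC x y hW.1 hW.2 hr, pC y x hW.2 hW.1 hr.symm]
        have hym := (hmem_iff x y hW.1).2 ⟨hW.2, hr.symm⟩
        have := (L x hW.1).edge x y (hmem x) hym
        rwa [← hr]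
      · rw [pWN x y (Or.inr (Or.inr hr)), pWN y x (Or.inr (Or.inr (Ne.symm hr)))]
        constructor
        · rintro (h | h)
          · exact absurd h (adjN x y hW.1 hW.2 hr)
          · exact Or.inr h
        · rintro (h | h)
          · exact absurd (badj x y hW.1 hW.2 h) hr
          · exact Or.inr h
  · -- disjoint
    intro x y hxy
    by_cases hW : x ∈ W ∨ y ∈ W
    · rw [adjW x y hW]
      rw [pWN x y (hW.elim Or.inl fun h => Or.inr (Or.inl h))] at hxy
      exact hdisj x y hxy
    · rw [not_or] at hW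
      by_cases hr : rep x = rep y
      · rw [adjC x y hW.1 hW.2 hr]
        rw [pC x y hW.1 hW.2 hr] at hxy
        exact (L x hW.1).disj x y hxy
      · exact adjN x y hW.1 hW.2 hr
  · -- no two-cycles
    intro x y hxy hyx
    by_cases hW : x ∈ W ∨ y ∈ W
    · rw [pWN x y (hW.elim Or.inl fun h => Or.inr (Or.inl h))] at hxy
      rw [pWN y x (hW.elim (fun h => Or.inr (Or.inl h)) Or.inl)] at hyx
      exact htwo x y hxy hyx
    · rw [not_or] at hW
      by_cases hr : rep x = rep y
      · rw [pC x y hW.1 hW.2 hr] at hxy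
        rw [pC y x hW.2 hW.1 hr.symm, ← hr] at hyx
        exact (L x hW.1).two x y hxy hyx
      · rw [pWN x y (Or.inr (Or.inr hr))] at hxy
        rw [pWN y x (Or.inr (Or.inr (Ne.symm hr)))] at hyx
        exact htwo x y hxy hyx
  · intro x
    by_cases hx : x ∈ W
    · rw [rW x hx]
      omega
    · rw [rC x hx]
      have := (L x hx).lt x (hmem x)
      omega
  · -- r1
    intro x y hxy h
    by_cases hx : x ∈ W
    · rw [rW x hx] at h
      rw [pW x hx] at hxy
      exact hW1 x hx y hxy (reach1 x y (reach_id h fun a b hab => hab.1.reachable))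
    · rw [rC x hx] at h
      obtain ⟨hy, hr, h⟩ := walkC _ x y hx h
      rw [pC x y hx hy hr] at hxy
      exact (L x hx).r1 x y hxy h
  · -- r2
    intro x y hne hr h
    by_cases hx : x ∈ W
    · have hy : y ∈ W := by
        by_contra hy
        rw [rW x hx, rC y hy] at hr
        omega
      exact hne (hW2 x hx y hy
        (reach1 x y (reach_id h fun a b hab => hab.1.reachable)))
    · rw [rC x hx] at h
      obtain ⟨hy, hr', h⟩ := walkC _ x y hx h
      rw [rC x hx, rC y hy, ← hr'] at hr
      exact (L x hx).r2 x y (hmem x) ((hmem_iff x y hx).2 ⟨hy, hr'.symm⟩) hne (by omega) h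

end Pool.Agent.Run7.h298.BD
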